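import Pool.Agent.MP_e848aa_gt.Basic

/-!
Closed images of metalindelof spaces in which arbitrary intersections of open sets are open.
-/

open Set Topology

namespace Pool.Agent.MP_e848aa_gt.Dowker

universe u v

/-- Arbitrary intersections of open sets are open. -/
def Alexandrov (Y : Type v) [TopologicalSpace Y] : Prop :=
  ∀ 𝒮 : Set (Set Y), (∀ S ∈ 𝒮, IsOpen S) → IsOpen (⋂₀ 𝒮)

/-- The intersection of all open sets containing `y`. -/
def up {Y : Type v} [TopologicalSpace Y] (y : Y) : Set Y := ⋂₀ {S | IsOpen S ∧ y ∈ S}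

theorem self_mem_up {Y : Type v} [TopologicalSpace Y] (y : Y) : y ∈ up y := by
  rintro S ⟨_, h⟩
  exact h

theorem isOpen_up {Y : Type v} [TopologicalSpace Y] (hY : Alexandrov Y) (y : Y) :
    IsOpen (up y) := hY _ fun _ h => h.1

theorem up_subset {Y : Type v} [TopologicalSpace Y] {y : Y} {O : Set Y} (hO : IsOpen O)
    (hy : y ∈ O) : up y ⊆ O := sInter_subset_of_mem ⟨hO, hy⟩

theorem up_trans {Y : Type v} [TopologicalSpace Y] {x y z : Y} (h1 : y ∈ up x)
    (h2 : z ∈ up y) : z ∈ up x := by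
  rintro S ⟨hS, hx⟩
  exact h2 S ⟨hS, h1 S ⟨hS, hx⟩⟩

/-- Countable coinitial sets of points. -/
theorem exists_coinitial {X : Type u} {Y : Type v} [TopologicalSpace X] [TopologicalSpace Y]
    (hX : Metalindelof X) {f : X → Y} (hf : ClosedMapping f) (hY : Alexandrov Y) :
    ∃ D : Y → Set Y, (∀ w, (D w).Countable) ∧ ∀ w w', w ∈ up w' →
      ∃ x ∈ D w, w' ∈ up x ∧ w ∈ up x := by
  classical
  obtain ⟨V, v1, v2, v3, v4⟩ := hX.shrink (ι := Y) (fun y => f ⁻¹' (up y))
    (fun y => (isOpen_up hY y).preimage hf.continuous) (fun x => ⟨f x, self_mem_up _⟩)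
  choose g hg using hf.surjective
  refine ⟨fun w => {x | g w ∈ V x}, fun w => v4 (g w), fun w w' hw => ?_⟩
  have h1 : ∃ q, f q = w' ∧ ∀ O : Set X, IsOpen O → q ∈ O → g w ∈ O := by
    by_contra hcon
    push Not at hcon
    have h2 : w ∈ {y : Y | ∀ x, f x = y → x ∈ ⋃₀ {O : Set X | IsOpen O ∧ g w ∉ O}} := by
      refine up_subset (isOpen_kern hf.isClosedMap (isOpen_sUnion fun O hO => hO.1)) ?_ hw
      intro q hq
      obtain ⟨O, hO1, hO2, hO3⟩ := hcon q hq
      exact ⟨O, ⟨hO1, hO3⟩, hO2⟩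
    obtain ⟨O, ⟨_, hO2⟩, hO3⟩ := h2 (g w) (hg w)
    exact hO2 hO3
  obtain ⟨q, hq1, hq2⟩ := h1
  obtain ⟨x, hx⟩ := v3 q
  have h3 : g w ∈ V x := hq2 _ (v1 x) hx
  refine ⟨x, h3, ?_, ?_⟩
  · have := v2 x hx
    rwa [mem_preimage, hq1] at this
  · have := v2 x h3
    rwa [mem_preimage, hg] at this

/-- The closure of a point under `D`. -/
inductive Reach {Y : Type v} (D : Y → Set Y) (y : Y) : Y → Prop
  | base : Reach D y y
  | step {x z : Y} : Reach D y x → z ∈ D x → Reach D y z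

theorem countable_reach {Y : Type v} (D : Y → Set Y) (hD : ∀ w, (D w).Countable) (y : Y) :
    {z | Reach D y z}.Countable := by
  let L : ℕ → Set Y := fun n => Nat.rec {y} (fun _ S => ⋃ x ∈ S, D x) n
  have hL : ∀ n, L (n + 1) = ⋃ x ∈ L n, D x := fun n => rfl
  have hc : ∀ n, (L n).Countable := by
    intro n
    induction n with
    | zero => exact countable_singleton y
    | succ n ih => rw [hL]; exact ih.biUnion fun x _ => hD x
  refine (countable_iUnion hc).mono ?_
  intro z hz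
  have hz' : Reach D y z := hz
  clear hz
  induction hz' with
  | base => exact mem_iUnion.mpr ⟨0, rfl⟩
  | step _ h2 ih =>
    obtain ⟨n, hn⟩ := mem_iUnion.mp ih
    refine mem_iUnion.mpr ⟨n + 1, ?_⟩
    rw [hL]
    exact mem_biUnion hn h2

/-- Closed images with all intersections of open sets open. -/
theorem metalindelof_of_alexandrov {X : Type u} {Y : Type v} [TopologicalSpace X]
    [TopologicalSpace Y] (hX : Metalindelof X) {f : X → Y} (hf : ClosedMapping f)
    (hY : Alexandrov Y) : Metalindelof Y := by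
  classical
  obtain ⟨D, d1, d2⟩ := exists_coinitial hX hf hY
  obtain ⟨r, hr⟩ := exists_wellFoundedLT Y
  -- the new points of the block of `b`
  let E : Y → Set Y := fun b => {x | Reach D b x ∧ ∀ a, a < b → ∀ z, Reach D a z → x ∉ up z}
  intro 𝒰 h𝒰
  have hU : ∀ x, ∃ U ∈ 𝒰, x ∈ U := by
    intro x
    have hx : x ∈ ⋃₀ 𝒰 := by rw [h𝒰.2]; trivial
    exact hx
  refine hasPCR_of_coverable (coverable_of_indexed (ι := {x : Y // ∃ b, x ∈ E b})
    (fun x => up x.1) (fun x => isOpen_up hY _) ?_ ?_ ?_)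
  · intro x
    obtain ⟨U, hU1, hU2⟩ := hU x.1
    exact ⟨U, hU1, up_subset (h𝒰.1 U hU1) hU2⟩
  · intro w _
    have hne : {b | ∃ z, Reach D b z ∧ w ∈ up z}.Nonempty := ⟨w, w, Reach.base, self_mem_up w⟩
    have hwf : WellFounded ((· < ·) : Y → Y → Prop) := wellFounded_lt
    obtain ⟨z, hz1, hz2⟩ := hwf.min_mem _ hne
    refine ⟨⟨z, hwf.min _ hne, hz1, fun a ha z' hz' hcon => ?_⟩, hz2⟩
    have h3 : a ∈ {b | ∃ z, Reach D b z ∧ w ∈ up z} := ⟨z', hz', up_trans hcon hz2⟩
    exact hwf.not_lt_min _ h3 ha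
  · intro w
    -- every point `d` below `w` serves one block
    have key : ∀ d, {b | ∃ x ∈ E b, x ∈ up d}.Subsingleton := by
      intro d
      have h1 : ∀ a b, a < b → (∃ x ∈ E a, x ∈ up d) → ¬ ∃ x ∈ E b, x ∈ up d := by
        rintro a b hab ⟨x, ⟨hx1, _⟩, hx2⟩ ⟨x', ⟨_, hx3⟩, hx4⟩
        obtain ⟨z, hz1, hz2, _⟩ := d2 x d hx2
        exact hx3 a hab z (hx1.step hz1) (up_trans hz2 hx4)
      intro a ha b hb
      rcases lt_trichotomy a b with h | h | h
      · exact absurd hb (h1 a b h ha)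
      · exact h
      · exact absurd ha (h1 b a h hb)
    have h2 : (⋃ d ∈ D w, ⋃ b ∈ {b | ∃ x ∈ E b, x ∈ up d},
        ((fun x : {x : Y // ∃ b, x ∈ E b} => x.1) ⁻¹' {x | Reach D b x})).Countable := by
      refine (d1 w).biUnion fun d _ => (key d).countable.biUnion fun b _ => ?_
      exact (countable_reach D d1 b).preimage_of_injOn Subtype.val_injective.injOn
    refine h2.mono ?_
    rintro ⟨x, b, hxb⟩ hw
    obtain ⟨d, hd1, hd2, _⟩ := d2 w x hw
    simp only [mem_iUnion]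
    exact ⟨d, hd1, b, ⟨x, hxb, hd2⟩, hxb.1⟩

end Pool.Agent.MP_e848aa_gt.Dowker
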