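import Pool.Agent.MP_e848aa_gt.Closed.Defs

/-! Tightness, closures of small sets, and closed refinements of increasing open covers. -/

open Set Cardinal

namespace Pool.Agent.MP_e848aa_gt

universe u

/-- The tightness of `Y` is at most `κ`: every point in the closure of a set lies in the closure
of a subset of it with at most `κ` points. -/
def TightnessLe (Y : Type u) [TopologicalSpace Y] (κ : Cardinal.{u}) : Prop :=
  ∀ (S : Set Y) (y : Y), y ∈ closure S → ∃ C ⊆ S, #C ≤ κ ∧ y ∈ closure C

/-- The closure of every set with at most `κ` points is the union of the closures of its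
points. -/
def PointwiseClosures (Y : Type u) [TopologicalSpace Y] (κ : Cardinal.{u}) : Prop :=
  ∀ C : Set Y, #C ≤ κ → closure C = ⋃ c ∈ C, closure {c}

/-- Every increasing sequence of open sets with union the whole space has a closed refinement
with fewer than aleph omega members: a family of closed sets, each contained in a member of the
sequence, with union the whole space. -/
def ClosedShrinkable (Y : Type u) [TopologicalSpace Y] : Prop :=
  ∀ G : ℕ → Set Y, (∀ n, IsOpen (G n)) → Monotone G → (⋃ n, G n) = Set.univ →
    ∃ 𝒞 : Set (Set Y), #𝒞 < ℵ_ Ordinal.omega0 ∧ (∀ C ∈ 𝒞, IsClosed C ∧ ∃ n, C ⊆ G n) ∧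
      ⋃₀ 𝒞 = Set.univ

/-- `Y` is a k-space: a set is closed if its intersection with every compact set is relatively
closed. -/
def KSpace (Y : Type u) [TopologicalSpace Y] : Prop :=
  ∀ S : Set Y, (∀ K : Set Y, IsCompact K → ∃ C : Set Y, IsClosed C ∧ S ∩ K = C ∩ K) → IsClosed S

end Pool.Agent.MP_e848aa_gt
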