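import Pool.Agent.MP_e848aa_gt.Closed.Omega
import Pool.Agent.MP_e848aa_gt.Closed.LemmaP
import Pool.Agent.MP_e848aa_gt.Dowker.Alex
import Pool.Agent.MP_e848aa_gt.Dowker.Defs

/-!
Tightness, and closures of small sets of points whose fibres are not covered by few members of
a point-countable family.
-/

open Set Topology Cardinal

namespace Pool.Agent.MP_e848aa_gt.Dowker

open Pool.Agent.MP_e848aa_gt.Closed

universe u v w

/-- Tightness at most `κ` and pointwise closures of sets with at most `κ` points. -/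
theorem alexandrov_of_tight {Y : Type v} [TopologicalSpace Y] {κ : Cardinal.{v}}
    (hY : TightnessLe Y κ) (hP : PointwiseClosures Y κ) : Alexandrov Y := by
  intro 𝒮 h𝒮
  rw [← isClosed_compl_iff, ← closure_subset_iff_isClosed]
  intro y hy
  obtain ⟨C, hC1, hC2, hC3⟩ := hY _ y hy
  rw [hP C hC2] at hC3
  obtain ⟨c, hc, hyc⟩ := mem_iUnion₂.mp hC3
  have h2 := hC1 hc
  simp only [mem_compl_iff, mem_sInter, not_forall] at h2
  obtain ⟨S, hS, hcS⟩ := h2
  have h3 : closure {c} ⊆ Sᶜ :=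
    closure_minimal (singleton_subset_iff.mpr hcS) (h𝒮 S hS).isClosed_compl
  exact fun hcon => h3 hyc (hcon S hS)

theorem TightnessLe.subtype {Y : Type v} [TopologicalSpace Y] {κ : Cardinal.{v}}
    (hY : TightnessLe Y κ) (Z : Set Y) : TightnessLe Z κ := by
  intro S y hy
  rw [closure_subtype] at hy
  obtain ⟨C, hC1, hC2, hC3⟩ := hY _ y.1 hy
  have hval : ∀ c : C, ∃ z : Z, z ∈ S ∧ z.1 = c.1 := fun c => hC1 c.2
  choose z hz1 hz2 using hval
  refine ⟨range z, ?_, Cardinal.mk_range_le.trans hC2, ?_⟩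
  · rintro _ ⟨c, rfl⟩
    exact hz1 c
  · rw [closure_subtype]
    refine closure_mono ?_ hC3
    intro c hc
    exact ⟨z ⟨c, hc⟩, ⟨_, rfl⟩, hz2 ⟨c, hc⟩⟩

theorem TightnessLe.image {X Y : Type u} [TopologicalSpace X]
    [TopologicalSpace Y] {κ : Cardinal.{u}} (hX : TightnessLe X κ) {f : X → Y}
    (hf : ClosedMapping f) : TightnessLe Y κ := by
  intro S y hy
  have h1 : closure S ⊆ f '' closure (f ⁻¹' S) := by
    refine closure_minimal ?_ (hf.isClosedMap _ isClosed_closure)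
    intro s hs
    obtain ⟨x, rfl⟩ := hf.surjective s
    exact ⟨x, subset_closure hs, rfl⟩
  obtain ⟨x, hx, rfl⟩ := h1 hy
  obtain ⟨C, hC1, hC2, hC3⟩ := hX _ x hx
  refine ⟨f '' C, ?_, Cardinal.mk_image_le.trans hC2, ?_⟩
  · rintro _ ⟨c, hc, rfl⟩
    exact hC1 hc
  · exact hf.continuous.closure_preimage_subset _
      (closure_mono (subset_preimage_image f C) hC3)

theorem TightnessLe.mono {Y : Type u} [TopologicalSpace Y] {κ κ' : Cardinal.{u}}
    (hY : TightnessLe Y κ) (h : κ ≤ κ') : TightnessLe Y κ' := by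
  intro S y hy
  obtain ⟨C, hC1, hC2, hC3⟩ := hY S y hy
  exact ⟨C, hC1, hC2.trans h, hC3⟩

theorem tightnessLe_of_firstCountable {Y : Type v} [TopologicalSpace Y]
    [FirstCountableTopology Y] : TightnessLe Y ℵ₀ := by
  intro S y hy
  obtain ⟨x, hx1, hx2⟩ := mem_closure_iff_seq_limit.mp hy
  refine ⟨range x, ?_, Cardinal.le_aleph0_iff_set_countable.mpr (countable_range x), ?_⟩
  · rintro _ ⟨n, rfl⟩
    exact hx1 n
  · exact mem_closure_of_tendsto hx2 (Filter.Eventually.of_forall fun n => ⟨n, rfl⟩)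

/-- Closures of small sets of bad points. -/
theorem closure_subset_of_bad {X : Type u} {Y : Type v} [TopologicalSpace X]
    [TopologicalSpace Y] {f : X → Y} {T : Y → Set X} (hT : FibreSel f T) {N : Type v}
    {V : N → Set X} (hVo : ∀ n, IsOpen (V n)) (hVc : ∀ x, {n | x ∈ V n}.Countable)
    {κ : Cardinal.{v}} (hκ : ℵ₀ ≤ κ) {B : Set Y} (hB : IsClosed B)
    (hBc : ∀ y ∈ B, T y ⊆ ⋃ n, V n)
    (hbad : ∀ y ∈ B, ∀ P : Set N, #P ≤ κ → ¬ T y ⊆ ⋃ n ∈ P, V n)
    (A : Set Y) (hAB : A ⊆ B) (hA : #A ≤ Order.succ κ) :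
    closure A ⊆ ⋃ a ∈ A, closure {a} := by
  classical
  -- points of the fibres over `A` lying in disjoint sets of members
  have hpick : ∀ (a : A) (P : Set N), #P ≤ κ → ∃ x ∈ T a.1, ∀ n ∈ P, x ∉ V n := by
    intro a P hP
    by_contra hcon
    push Not at hcon
    refine hbad a.1 (hAB a.2) P hP fun x hx => ?_
    obtain ⟨n, hn, hxn⟩ := hcon x hx
    exact mem_biUnion hn hxn
  obtain ⟨r, hr, hseg⟩ := exists_rank A (Order.succ κ) hA
  have hwf : WellFounded (fun a b : A => r a < r b) := InvImage.wf r wellFounded_lt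
  have hsel : ∃ g : A → X, ∀ a : A, g a ∈ T a.1 ∧
      ∀ b : A, r b < r a → ∀ n, g b ∈ V n → g a ∉ V n := by
    let step : (a : A) → ((b : A) → r b < r a → X) → X := fun a rec =>
      if h : ∃ x ∈ T a.1, ∀ n ∈ ⋃ b : {b : A // r b < r a}, {n | rec b.1 b.2 ∈ V n}, x ∉ V n
      then h.choose else (hT.ne a.1).some
    let g : A → X := hwf.fix step
    have hg : ∀ a, g a = step a (fun b _ => g b) := by
      intro a
      show hwf.fix step a = _
      rw [hwf.fix_eq]
    refine ⟨g, fun a => ?_⟩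
    have hex : ∃ x ∈ T a.1, ∀ n ∈ ⋃ b : {b : A // r b < r a}, {n | g b.1 ∈ V n},
        x ∉ V n := by
      refine hpick a _ ?_
      refine (Cardinal.mk_iUnion_le _).trans ?_
      have h1 : #{b : A // r b < r a} ≤ κ := Order.lt_succ_iff.mp (hseg a)
      have h2 : (⨆ b : {b : A // r b < r a}, #{n | g b.1 ∈ V n}) ≤ κ :=
        ciSup_le' fun b => (Cardinal.le_aleph0_iff_set_countable.mpr (hVc _)).trans hκ
      exact (mul_le_mul' h1 h2).trans (Cardinal.mul_eq_self hκ).le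
    have h3 : g a = hex.choose := by
      rw [hg a]
      simp only [step, dif_pos hex]
    rw [h3]
    refine ⟨hex.choose_spec.1, fun b hb n hn => hex.choose_spec.2 n ?_⟩
    exact mem_iUnion.mpr ⟨⟨b, hb⟩, hn⟩
  obtain ⟨g, hg⟩ := hsel
  have hone : ∀ n, ∀ a b : A, g a ∈ V n → g b ∈ V n → a = b := by
    intro n a b ha hb
    rcases lt_trichotomy (r a) (r b) with h | h | h
    · exact absurd hb ((hg b).2 a h n ha)
    · exact hr h
    · exact absurd ha ((hg a).2 b h n hb)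
  intro y hy
  have hyB : y ∈ B := closure_minimal hAB hB hy
  by_contra hcon
  simp only [mem_iUnion, not_exists] at hcon
  -- a neighbourhood of the fibre without chosen points
  have hW : ∀ x ∈ T y, ∃ W : Set X, IsOpen W ∧ x ∈ W ∧ ∀ a : A, g a ∉ W := by
    intro x hx
    obtain ⟨n, hn⟩ := mem_iUnion.mp (hBc y hyB hx)
    by_cases h : ∃ a : A, g a ∈ V n
    · obtain ⟨a, ha⟩ := h
      refine ⟨V n ∩ f ⁻¹' (closure {a.1})ᶜ,
        (hVo n).inter (isClosed_closure.isOpen_compl.preimage hT.cont), ⟨hn, ?_⟩, ?_⟩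
      · rw [mem_preimage, hT.fib y x hx]
        exact hcon a.1 a.2
      · rintro b ⟨hb1, hb2⟩
        obtain rfl := hone n b a hb1 ha
        rw [mem_preimage, hT.fib b.1 _ (hg b).1] at hb2
        exact hb2 (subset_closure rfl)
    · push Not at h
      exact ⟨V n, hVo n, hn, h⟩
  choose! W w1 w2 w3 using hW
  have hO : IsOpen {z | T z ⊆ ⋃ x ∈ T y, W x} :=
    hT.op _ (isOpen_biUnion fun x hx => w1 x hx)
  obtain ⟨a, ha1, ha2⟩ := mem_closure_iff.mp hy _ hO (fun x hx => mem_biUnion hx (w2 x hx))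
  obtain ⟨x, hx, hax⟩ := mem_iUnion₂.mp (ha1 (hg ⟨a, ha2⟩).1)
  exact w3 x hx ⟨a, ha2⟩ hax

/-- The same for the subspace. -/
theorem pointwiseClosures_of_bad {X : Type u} {Y : Type v} [TopologicalSpace X]
    [TopologicalSpace Y] {f : X → Y} {T : Y → Set X} (hT : FibreSel f T) {N : Type v}
    {V : N → Set X} (hVo : ∀ n, IsOpen (V n)) (hVc : ∀ x, {n | x ∈ V n}.Countable)
    {κ : Cardinal.{v}} (hκ : ℵ₀ ≤ κ) {B : Set Y} (hB : IsClosed B)
    (hBc : ∀ y ∈ B, T y ⊆ ⋃ n, V n)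
    (hbad : ∀ y ∈ B, ∀ P : Set N, #P ≤ κ → ¬ T y ⊆ ⋃ n ∈ P, V n) :
    PointwiseClosures B (Order.succ κ) := by
  intro C hC
  refine Subset.antisymm ?_ (iUnion₂_subset fun c hc =>
    closure_mono (singleton_subset_iff.mpr hc))
  intro y hy
  rw [closure_subtype] at hy
  have h1 := closure_subset_of_bad hT hVo hVc hκ hB hBc hbad (Subtype.val '' C) (by
    rintro _ ⟨c, _, rfl⟩
    exact c.2) (Cardinal.mk_image_le.trans hC) hy
  obtain ⟨a, ⟨c, hc, rfl⟩, hya⟩ := mem_iUnion₂.mp h1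
  refine mem_biUnion hc ?_
  rw [closure_subtype, image_singleton]
  exact hya

end Pool.Agent.MP_e848aa_gt.Dowker
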