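import Pool.Agent.MP_e848aa_gt.Closed.Boundary
import Pool.Agent.MP_e848aa_gt.Dowker.Tight

/-!
Closed metalindelof subspaces of the range, and reduction to closed P-subspaces, under the
descending chain condition.
-/

open Set Topology Cardinal

namespace Pool.Agent.MP_e848aa_gt.Dowker

open Pool.Agent.MP_e848aa_gt.Closed
open Pool.Agent.MP_e848aa_gt.FreeSet

universe u v w

/-- Closed metalindelof subspaces of the range are coverable. -/
theorem coverable_of_subspace {X : Type u} {Y : Type v} [TopologicalSpace X]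
    [TopologicalSpace Y] (hX : Metalindelof X) {f : X → Y} {T : Y → Set X} (hT : FibreSel f T)
    (H : Set Y) (hH : IsClosed H) (hHm : Metalindelof H) {I : Type v} (hI : HasDCC I)
    (U : I → Set Y) (hU : ∀ i, IsOpen (U i)) (hUc : ∀ y ∈ H, ∃ i, y ∈ U i) :
    Coverable (range U) H := by
  classical
  obtain ⟨F, hF, hdcc⟩ := hI
  refine coverable_of_stepHyp hT (e := (Sum.inl : I → I ⊕ Y)) Sum.inl_injective U hU F hF hdcc
    H hH hUc ?_
  intro A hA hAH G hG hGc
  -- shrink in the subspace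
  obtain ⟨W, w1, w2, w3, w4⟩ := hHm.shrinkOn (ι := I ⊕ Y) (fun n => (Subtype.val ⁻¹' (G n)))
    (fun n => (hG n).preimage continuous_subtype_val) (Subtype.val ⁻¹' A)
    (hA.preimage continuous_subtype_val) (fun x hx => hGc x.1 hx)
  have hE : ∀ n, ∃ E : Set Y, IsOpen E ∧ Subtype.val ⁻¹' E = W n := fun n =>
    isOpen_induced_iff.mp (w1 n)
  choose E e1 e2 using hE
  obtain ⟨V, v1, v2, v3, v4⟩ := hX.shrinkOn (ι := I ⊕ Y) (fun n => f ⁻¹' (G n ∩ E n))
    (fun n => ((hG n).inter (e1 n)).preimage hT.cont) (f ⁻¹' A) (hA.preimage hT.cont) (by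
      intro x hx
      obtain ⟨n, hn⟩ := w3 ⟨f x, hAH hx⟩ hx
      refine ⟨n, w2 n hn, ?_⟩
      rw [← e2 n] at hn
      exact hn)
  refine ⟨A, hA, subset_rfl, ?_, V, fun n => n.elim (fun _ => ∅)
    (fun y => if y ∈ A then {m | y ∈ E m} else ∅), v1, fun n => ?_, v4, ?_, ?_⟩
  · rw [sdiff_self]
    exact ⟨∅, by simp, fun V hV => by simp at hV, fun y => by simp, by simp⟩
  · exact (v2 n).trans (preimage_mono inter_subset_left)
  · intro n
    cases n with
    | inl i => simp
    | inr y =>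
      by_cases hy : y ∈ A
      · simp only [Sum.elim_inr, hy, if_pos]
        refine Cardinal.le_aleph0_iff_set_countable.mpr ((w4 ⟨y, hAH hy⟩).mono ?_)
        intro m hm
        show (⟨y, hAH hy⟩ : H) ∈ W m
        rw [← e2 m]
        exact hm
      · simp only [Sum.elim_inr, hy, if_neg, not_false_iff]
        simp
  · intro y hy
    refine ⟨Sum.inr y, ?_⟩
    intro x hx
    have hfx := hT.fib y x hx
    obtain ⟨m, hm⟩ := v3 x (by rw [mem_preimage, hfx]; exact hy)
    have h1 := v2 m hm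
    rw [mem_preimage, hfx] at h1
    refine mem_biUnion ?_ hm
    simp only [Sum.elim_inr, hy, if_pos]
    exact h1.2

/-- The selection given by the boundaries of the fibres. -/
theorem exists_boundary_sel {X : Type u} {Y : Type v} [TopologicalSpace X]
    [TopologicalSpace Y] {f : X → Y} (hf : ClosedMapping f) :
    ∃ (g : Y → X) (T : Y → Set X), FibreSel f T ∧
      ∀ y, T y = insert (g y) (f ⁻¹' {y} \ interior (f ⁻¹' {y})) := by
  classical
  choose g hg using hf.surjective
  let T : Y → Set X := fun y => insert (g y) (f ⁻¹' {y} \ interior (f ⁻¹' {y}))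
  have hT1 : ∀ y, T y ⊆ f ⁻¹' {y} := by
    rintro y x (rfl | hx)
    · exact hg y
    · exact hx.1
  refine ⟨g, T, ⟨hf.continuous, fun y => ⟨g y, Or.inl rfl⟩, fun y x hx => hT1 y hx, ?_⟩,
    fun y => rfl⟩
  intro W hW
  rw [isOpen_iff_forall_mem_open]
  intro y hy
  refine ⟨{y' | ∀ x, f x = y' → x ∈ W ∪ interior (f ⁻¹' {y})}, ?_,
    isOpen_kern hf.isClosedMap (hW.union isOpen_interior), ?_⟩
  · intro y' hy' x hx
    have hxf : f x = y' := hT1 y' hx
    rcases hy' x hxf with h | h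
    · exact h
    · have h2 : x ∈ f ⁻¹' {y} := interior_subset h
      have h3 : y' = y := hxf.symm.trans h2
      exact hy (h3 ▸ hx)
  · intro x hx
    by_cases hx' : x ∈ interior (f ⁻¹' {y})
    · exact Or.inr hx'
    · exact Or.inl (hy (Or.inr ⟨hx, hx'⟩))

/-- Closed sets all of whose closed P-subspaces with large fibre boundaries are metalindelof. -/
theorem coverable_of_psubspaces {X : Type u} {Y : Type v} [TopologicalSpace X]
    [TopologicalSpace Y] (hX : Metalindelof X) {f : X → Y} (hf : ClosedMapping f)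
    (H : Set Y) (hH : IsClosed H) (n : ℕ) {I : Type v} (hI : HasDCC I)
    (hIY : HasDCC (I ⊕ Y))
    (hZ : ∀ Z : Set Y, IsClosed Z → Z ⊆ H → (∀ z : Z, IsPPoint z) →
      PointwiseClosures Z (ℵ_ ((n + 1 : ℕ) : Ordinal.{v})) →
      (∀ y ∈ Z, ¬ LindelofNumberLe (f ⁻¹' {y} \ interior (f ⁻¹' {y}))
        (ℵ_ (n : Ordinal.{u}))) → Metalindelof Z)
    (U : I → Set Y) (hU : ∀ i, IsOpen (U i)) (hUc : ∀ y ∈ H, ∃ i, y ∈ U i) :
    Coverable (range U) H := by
  classical
  obtain ⟨g, T, hT, hTy⟩ := exists_boundary_sel hf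
  obtain ⟨F', hF', hdcc'⟩ := hIY
  have hI' := hI
  obtain ⟨F, hF, hdcc⟩ := hI
  have htop : Rem T (range U) H (I ⊕ Y) (ℵ_ (n : Ordinal.{v})) := by
    intro V v1 v4 A hA hAH hVc
    have hB := isClosed_bad hT v1 hA (fun P : Set (I ⊕ Y) => #P ≤ ℵ_ (n : Ordinal.{v}))
    have hP : RelP {y | y ∈ A ∧ ∀ P : Set (I ⊕ Y), #P ≤ ℵ_ (n : Ordinal.{v}) →
        ¬ T y ⊆ ⋃ m ∈ P, V m} := by
      rintro y ⟨hy, -⟩ E hE hEy
      obtain ⟨N, n1, n2, n3⟩ := exists_pnbhd hT F' hF' hdcc' V v1 v4 y (hVc y hy) E hE hEy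
      refine ⟨N, n1, n2, fun z hz hzB => n3 z hz fun P hP => hzB.2 P ?_⟩
      exact (Cardinal.le_aleph0_iff_set_countable.mpr hP).trans (Cardinal.aleph0_le_aleph _)
    have hC := pointwiseClosures_of_bad hT v1 v4 (Cardinal.aleph0_le_aleph _) hB
      (fun y hy => hVc y hy.1) (fun y hy => hy.2)
    rw [← aleph_succ_nat] at hC
    refine coverable_of_subspace hX hT _ hB (hZ _ hB (fun y hy => hAH hy.1)
      (fun z => hP.isPPoint z) hC ?_) hI' U hU (fun y hy => hUc y (hAH hy.1))
    rintro y ⟨hy, hy'⟩ hL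
    obtain ⟨P, hP1, hP2⟩ := exists_indexed_subcover hL V v1 (by
      refine Subset.trans ?_ (hVc y hy)
      rw [hTy]
      exact subset_insert _ _)
    obtain ⟨m, hm⟩ := mem_iUnion.mp (hVc y hy (by rw [hTy]; exact mem_insert (g y) _))
    refine hy' (insert m P) ?_ ?_
    · refine (Cardinal.mk_insert_le).trans ?_
      exact Cardinal.add_le_of_le (Cardinal.aleph0_le_aleph _) hP1
        (Cardinal.one_le_aleph0.trans (Cardinal.aleph0_le_aleph _))
    · rw [hTy]
      rintro x (rfl | hx)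
      · exact mem_biUnion (mem_insert m P) hm
      · obtain ⟨k, hk, hxk⟩ := mem_iUnion₂.mp (hP2 hx)
        exact mem_biUnion (mem_insert_of_mem m hk) hxk
  have hall : ∀ j : ℕ, j ≤ n → Rem T (range U) H (I ⊕ Y) (ℵ_ ((n - j : ℕ) : Ordinal.{v})) := by
    intro j
    induction j with
    | zero => intro _; exact htop
    | succ j ih =>
      intro hj
      refine rem_step hX hf hT U hU F hF hdcc H hH hUc (n - (j + 1)) ?_
      rw [show n - (j + 1) + 1 = n - j by omega]
      exact ih (by omega)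
  have h0 := hall n le_rfl
  rw [Nat.sub_self, Nat.cast_zero, Cardinal.aleph_zero] at h0
  exact coverable_of_stepHyp hT (e := (Sum.inl : I → I ⊕ Y)) Sum.inl_injective U hU F hF hdcc
    H hH hUc (stepHyp_of_rem hX hT h0)

end Pool.Agent.MP_e848aa_gt.Dowker
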