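import Pool.Agent.MP_e848aa_gt.FreeSet.Neg

/-!
The domain and the range of the counterexample built from a set with the free set property are
first countable.
-/

namespace Pool.Agent.MP_e848aa_gt.FreeSet

open Set Topology

universe u

variable {Λ : Type u}

theorem isOpen_B (m : ℕ) (y : List Bool → Λ) (β : ℕ → Bool) : IsOpen (B m y β) := by
  rw [isOpen_iff]
  intro z γ h
  obtain ⟨σ, h1, h2⟩ := mem_B_inl.1 h
  refine ⟨σ.length + m, ?_⟩
  rintro (⟨w, δ⟩ | d) hx
  · obtain ⟨τ, h3, h4⟩ := mem_B_inl.1 hx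
    refine mem_B_inl.2 ⟨τ ++ σ, fun ρ hρ => ?_, fun p hp => ?_⟩
    · rw [List.append_assoc, h3, h1 ρ hρ]
      simp only [List.length_append]
      omega
    · have h5 := h4 (σ.length + p) (by omega)
      rw [← h2 p hp, ← h5, List.length_append]
      congr 1
      omega
  · have h3 := mem_B_inr.1 hx
    refine mem_B_inr.2 ?_
    rintro ρ ⟨hρ, p, hp, hne⟩
    rw [← h1 ρ hρ]
    refine h3 (σ ++ ρ) ⟨by simp only [List.length_append]; omega, σ.length + p, ?_, ?_⟩
    · simp only [List.length_append]
      omega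
    · rw [List.getElem_append_right (by omega)]
      simp only [Nat.add_sub_cancel_left]
      rw [h2 p (by omega)]
      exact hne

theorem isOpen_fs (d : Finset Λ) : IsOpen ({SX.fs d} : Set (SX Λ)) := by
  rw [isOpen_iff]
  rintro y β h
  exact absurd h (by rintro ⟨⟩)

instance firstCountable_SX : FirstCountableTopology (SX Λ) := by
  refine ⟨fun x => ?_⟩
  rcases x with ⟨y, β⟩ | d
  · have h : (𝓝 (SX.pt y β)).HasBasis (fun _ : ℕ => True) (fun m => B m y β) := by
      refine ⟨fun S => ?_⟩
      rw [mem_nhds_iff]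
      constructor
      · rintro ⟨O, hO, hOo, hyO⟩
        obtain ⟨m, hm⟩ := isOpen_iff.1 hOo y β hyO
        exact ⟨m, trivial, hm.trans hO⟩
      · rintro ⟨m, -, hm⟩
        exact ⟨B m y β, hm, isOpen_B m y β, self_mem_B m y β⟩
    exact h.isCountablyGenerated
  · have h : 𝓝 (SX.fs d) = pure (SX.fs d) := by
      refine le_antisymm ?_ (pure_le_nhds _)
      rw [Filter.le_pure_iff]
      exact (isOpen_fs d).mem_nhds rfl
    rw [h]
    infer_instance

instance firstCountable_SY : FirstCountableTopology (SY Λ) := by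
  refine ⟨fun x => ?_⟩
  rcases x with y | d
  · have ho : ∀ m, IsOpen (⋃ β, B m y β) := fun m => isOpen_iUnion fun β => isOpen_B m y β
    have h : (𝓝 (SY.pt y)).HasBasis (fun _ : ℕ => True)
        (fun m => (proj '' (⋃ β, B m y β)ᶜ)ᶜ) := by
      refine ⟨fun S => ?_⟩
      rw [mem_nhds_iff]
      constructor
      · rintro ⟨O, hO, hOo, hyO⟩
        obtain ⟨m, hm⟩ := uniform y (isOpen_Y.1 hOo) (fun β => hyO)
        refine ⟨m, trivial, Subset.trans ?_ hO⟩
        intro z hz
        obtain ⟨x, rfl⟩ := proj_surjective z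
        have h1 : x ∈ ⋃ β, B m y β := by
          by_contra hcon
          exact hz ⟨x, hcon, rfl⟩
        obtain ⟨β, hβ⟩ := mem_iUnion.mp h1
        exact hm β hβ
      · rintro ⟨m, -, hm⟩
        refine ⟨_, hm, (isClosedMap_proj _ (ho m).isClosed_compl).isOpen_compl, ?_⟩
        rintro ⟨x, hx, hxy⟩
        rcases x with ⟨z, γ⟩ | d
        · obtain rfl : z = y := SY.pt.inj hxy
          exact hx (mem_iUnion.mpr ⟨γ, self_mem_B m z γ⟩)
        · exact absurd hxy (by rintro ⟨⟩)
    exact h.isCountablyGenerated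
  · have h : 𝓝 (SY.fs d : SY Λ) = pure (SY.fs d) := by
      refine le_antisymm ?_ (pure_le_nhds _)
      rw [Filter.le_pure_iff]
      refine IsOpen.mem_nhds ?_ rfl
      rw [isOpen_Y]
      have h1 : (proj ⁻¹' {SY.fs d} : Set (SX Λ)) = {SX.fs d} := by
        ext x
        constructor
        · intro hx
          rcases x with ⟨z, γ⟩ | d'
          · exact absurd hx (by rintro ⟨⟩)
          · obtain rfl : d' = d := SY.fs.inj hx
            rfl
        · rintro rfl
          rfl
      rw [h1]
      exact isOpen_fs d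
    rw [h]
    infer_instance

end Pool.Agent.MP_e848aa_gt.FreeSet
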