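import Pool.Agent.MP_e848aa_gt.Dowker.Alex
import Pool.Agent.MP_e848aa_gt.Dowker.Defs

/-!
Closed P-subspaces of Hausdorff k-spaces are discrete.
-/

open Set Topology

namespace Pool.Agent.MP_e848aa_gt.Dowker

universe u v

theorem KSpace.image {X Y : Type u} [TopologicalSpace X] [TopologicalSpace Y]
    (hX : KSpace X) {f : X → Y} (hf : ClosedMapping f) : KSpace Y := by
  intro S hS
  have h1 : IsClosed (f ⁻¹' S) := by
    refine hX _ fun L hL => ?_
    obtain ⟨C, hC, hSC⟩ := hS (f '' L) (hL.image hf.continuous)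
    refine ⟨f ⁻¹' C, hC.preimage hf.continuous, ?_⟩
    ext x
    constructor
    · rintro ⟨hx, hxL⟩
      have h2 : f x ∈ S ∩ f '' L := ⟨hx, x, hxL, rfl⟩
      rw [hSC] at h2
      exact ⟨h2.1, hxL⟩
    · rintro ⟨hx, hxL⟩
      have h2 : f x ∈ C ∩ f '' L := ⟨hx, x, hxL, rfl⟩
      rw [← hSC] at h2
      exact ⟨h2.1, hxL⟩
  have h2 := hf.isClosedMap _ h1
  rwa [image_preimage_eq S hf.surjective] at h2

/-- Compact sets have finite traces on P-subspaces. -/
theorem finite_inter {Y : Type u} [TopologicalSpace Y] [T2Space Y] {Z : Set Y}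
    (hZ : IsClosed Z) (hP : ∀ z : Z, IsPPoint z) {K : Set Y} (hK : IsCompact K) :
    (Z ∩ K).Finite := by
  classical
  by_contra hinf
  have hinf' : (Z ∩ K).Infinite := hinf
  have hc : IsCompact (Z ∩ K) := hK.inter_left hZ
  let e : ℕ ↪ (Z ∩ K : Set Y) := hinf'.natEmbedding
  have hs : (range fun n => (e n).1).Infinite :=
    Set.infinite_range_of_injective (Subtype.val_injective.comp e.injective)
  obtain ⟨z, hz, hacc⟩ := hs.exists_accPt_of_subset_isCompact hc (by
    rintro _ ⟨n, rfl⟩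
    exact (e n).2)
  have h1 : (⋂ n : ℕ, (if (e n).1 = z then Set.univ else
      ({(⟨(e n).1, (e n).2.1⟩ : Z)}ᶜ : Set Z))) ∈ 𝓝 (⟨z, hz.1⟩ : Z) := by
    refine hP ⟨z, hz.1⟩ _ fun n => ?_
    by_cases h : (e n).1 = z
    · simp only [h, if_pos]
      exact Filter.univ_mem
    · simp only [h, if_neg, not_false_iff]
      refine isOpen_compl_singleton.mem_nhds ?_
      intro hcon
      exact h (congrArg Subtype.val hcon).symm
  rw [mem_nhds_subtype] at h1
  obtain ⟨O, hO, hsub⟩ := h1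
  rw [accPt_iff_nhds] at hacc
  obtain ⟨w, ⟨hwO, n, rfl⟩, hwz⟩ := hacc O hO
  have h2 := mem_iInter.mp (hsub (show (⟨(e n).1, (e n).2.1⟩ : Z) ∈ Subtype.val ⁻¹' O from hwO)) n
  have hne : (e n).1 ≠ z := hwz
  simp only [hne, if_neg, not_false_iff] at h2
  exact h2 rfl

theorem alexandrov_of_kspace {Y : Type u} [TopologicalSpace Y] [T2Space Y] (hY : KSpace Y)
    {Z : Set Y} (hZ : IsClosed Z) (hP : ∀ z : Z, IsPPoint z) : Alexandrov Z := by
  have h1 : ∀ S : Set Y, S ⊆ Z → IsClosed S := by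
    intro S hS
    refine hY S fun K hK => ⟨S ∩ K, ?_, by rw [inter_assoc, inter_self]⟩
    exact ((finite_inter hZ hP hK).subset (inter_subset_inter_left K hS)).isClosed
  intro 𝒮 _
  rw [← isClosed_compl_iff]
  have h2 := h1 (Subtype.val '' (⋂₀ 𝒮)ᶜ) (by
    rintro _ ⟨z, _, rfl⟩
    exact z.2)
  have h3 := h2.preimage (continuous_subtype_val (p := fun y => y ∈ Z))
  rwa [preimage_image_eq _ Subtype.val_injective] at h3

end Pool.Agent.MP_e848aa_gt.Dowker
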