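import Pool.Agent.MP_e848aa_gt.Dowker.Limit
import Pool.Agent.MP_e848aa_gt.Dowker.Extend
import Pool.Agent.MP_e848aa_gt.Dowker.Tight
import Pool.Agent.MP_e848aa_gt.Dowker.First
import Pool.Agent.MP_e848aa_gt.Dowker.KSpace

/-!
Reduction of the closed image problem to closed P-subspaces of the range.
-/

open Set Topology Cardinal

namespace Pool.Agent.MP_e848aa_gt.Dowker

open Pool.Agent.MP_e848aa_gt.Closed
open Pool.Agent.MP_e848aa_gt.FreeSet

universe u v

theorem closedShrinkable_of_cm {Y : Type u} [TopologicalSpace Y]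
    (hY : CountablyMetacompact Y) : ClosedShrinkable Y := by
  intro G hG hm hc
  obtain ⟨M, m1, m2, m3⟩ := hY.shrink G hG hm Set.univ isClosed_univ (by rw [hc])
  refine ⟨range M, ?_, ?_, ?_⟩
  · refine lt_of_le_of_lt (Cardinal.le_aleph0_iff_set_countable.mpr (countable_range M)) ?_
    rw [← Cardinal.aleph_zero]
    exact Cardinal.aleph_lt_aleph.mpr Ordinal.omega0_pos
  · rintro _ ⟨n, rfl⟩
    exact ⟨m1 n, n, m2 n⟩
  · rw [sUnion_range, ← m3]

theorem closedShrinkable_image {X Y : Type u} [TopologicalSpace X] [TopologicalSpace Y]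
    (hX : CountablyMetacompact X) {f : X → Y} (hf : ClosedMapping f) : ClosedShrinkable Y := by
  intro G hG hm hc
  obtain ⟨M, m1, m2, m3⟩ := hX.shrink (fun n => f ⁻¹' (G n))
    (fun n => (hG n).preimage hf.continuous) (fun n m h => preimage_mono (hm h)) Set.univ
    isClosed_univ (by rw [← preimage_iUnion, hc]; exact subset_rfl)
  refine ⟨range fun n => f '' M n, ?_, ?_, ?_⟩
  · refine lt_of_le_of_lt (Cardinal.le_aleph0_iff_set_countable.mpr (countable_range _)) ?_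
    rw [← Cardinal.aleph_zero]
    exact Cardinal.aleph_lt_aleph.mpr Ordinal.omega0_pos
  · rintro _ ⟨n, rfl⟩
    exact ⟨hf.isClosedMap _ (m1 n), n, image_subset_iff.mpr (m2 n)⟩
  · rw [sUnion_range, ← image_iUnion, ← m3, image_univ, hf.surjective.range_eq]

theorem ClosedShrinkable.subtype {Y : Type u} [TopologicalSpace Y] (hY : ClosedShrinkable Y)
    {Z : Set Y} (hZ : IsClosed Z) : ClosedShrinkable Z := by
  intro G hG hm hc
  let E : ℕ → Set Y := fun n => {y | ∀ h : y ∈ Z, (⟨y, h⟩ : Z) ∈ G n}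
  have hE1 : ∀ n, IsOpen (E n) := by
    intro n
    obtain ⟨O, hO, hOG⟩ := isOpen_induced_iff.mp (hG n)
    have h1 : E n = O ∪ Zᶜ := by
      ext y
      constructor
      · intro hy
        by_cases h : y ∈ Z
        · left
          have h2 := hy h
          rw [← hOG] at h2
          exact h2
        · exact Or.inr h
      · rintro (hy | hy) h
        · rw [← hOG]
          exact hy
        · exact absurd h hy
    rw [h1]
    exact hO.union hZ.isOpen_compl
  obtain ⟨𝒞, c1, c2, c3⟩ := hY E hE1 (fun n m h y hy hyZ => hm h (hy hyZ)) (by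
    rw [Set.eq_univ_iff_forall]
    intro y
    by_cases h : y ∈ Z
    · have h2 : (⟨y, h⟩ : Z) ∈ ⋃ n, G n := by rw [hc]; trivial
      obtain ⟨n, hn⟩ := mem_iUnion.mp h2
      exact mem_iUnion.mpr ⟨n, fun _ => hn⟩
    · exact mem_iUnion.mpr ⟨0, fun h' => absurd h' h⟩)
  refine ⟨(fun C : Set Y => (Subtype.val ⁻¹' C : Set Z)) '' 𝒞,
    lt_of_le_of_lt Cardinal.mk_image_le c1, ?_, ?_⟩
  · rintro _ ⟨C, hC, rfl⟩
    obtain ⟨h1, n, h2⟩ := c2 C hC
    exact ⟨h1.preimage continuous_subtype_val, n, fun z hz => h2 hz z.2⟩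
  · rw [Set.eq_univ_iff_forall]
    intro z
    have h1 : z.1 ∈ ⋃₀ 𝒞 := by rw [c3]; trivial
    obtain ⟨C, hC, hzC⟩ := h1
    exact ⟨_, ⟨C, hC, rfl⟩, hzC⟩

/-- P-spaces with points which are `G_δ`-sets. -/
theorem alexandrov_of_gdelta {Y : Type u} [TopologicalSpace Y] {Z : Set Y}
    (hY : ∀ y : Y, IsGδ {y}) (hP : ∀ z : Z, IsPPoint z) : Alexandrov Z := by
  have h1 : ∀ z : Z, IsOpen {z} := by
    intro z
    obtain ⟨E, hE1, hE2⟩ := isGδ_iff_eq_iInter_nat.mp (hY z.1)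
    have h2 : (⋂ n, (Subtype.val ⁻¹' E n : Set Z)) ∈ 𝓝 z := by
      refine hP z _ fun n => ((hE1 n).preimage continuous_subtype_val).mem_nhds ?_
      have h3 : z.1 ∈ ⋂ n, E n := by rw [← hE2]; rfl
      exact mem_iInter.mp h3 n
    have h4 : (⋂ n, (Subtype.val ⁻¹' E n : Set Z)) = {z} := by
      ext w
      rw [← preimage_iInter, ← hE2]
      constructor
      · intro hw
        exact Subtype.ext hw
      · rintro rfl
        rfl
    rw [h4] at h2
    exact isOpen_singleton_iff_nhds_eq_pure z |>.mpr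
      (le_antisymm (Filter.le_pure_iff.mpr h2) (pure_le_nhds _))
  intro 𝒮 _
  rw [← biUnion_of_singleton (⋂₀ 𝒮)]
  exact isOpen_biUnion fun z _ => h1 z

/-- Closed P-subspaces of the range. -/
theorem metalindelof_pspace {X Y : Type u} [TopologicalSpace X]
    [TopologicalSpace Y] (hX : Metalindelof X) {f : X → Y} (hf : ClosedMapping f)
    {Z : Set Y} (hZ : IsClosed Z) (hP : ∀ z : Z, IsPPoint z)
    (h : #Z ≤ ℵ_ Ordinal.omega0 ∨ (∃ κ, TightnessLe Z κ ∧ PointwiseClosures Z κ) ∨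
      ClosedShrinkable Z ∨ (∀ y : Y, IsGδ {y}) ∨ (T2Space Y ∧ KSpace Y) ∨ Metalindelof Z) :
    Metalindelof Z := by
  have hX' : Metalindelof (f ⁻¹' Z) :=
    metalindelof_closed_subspace hX _ (hZ.preimage hf.continuous)
  have hg := closedMapping_restrict hf Z
  rcases h with h | h | h | h | h | h
  · intro 𝒰 h𝒰
    exact hasPCR_of_coverable (coverable_of_le_aleph_omega hX' hg 𝒰 h𝒰 Set.univ
      (by rwa [Cardinal.mk_univ]))
  · obtain ⟨κ, h1, h2⟩ := h
    exact metalindelof_of_alexandrov hX' hg (alexandrov_of_tight h1 h2)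
  · exact metalindelof_of_closedShrinkable hX' hg hP h
  · exact metalindelof_of_alexandrov hX' hg (alexandrov_of_gdelta h hP)
  · obtain ⟨h1, h2⟩ := h
    exact metalindelof_of_alexandrov hX' hg (alexandrov_of_kspace h2 hZ hP)
  · exact h

/-- The main reduction. -/
theorem metalindelof_of_psubspaces (hFS : ∀ I : Type u, ¬ FreeSetProperty I) {X Y : Type u}
    [TopologicalSpace X] [TopologicalSpace Y] (hX : Metalindelof X) {f : X → Y}
    (hf : ClosedMapping f) (n : ℕ) (A : Set Y) (hA : #A ≤ ℵ_ Ordinal.omega0)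
    (hZ : ∀ Z : Set Y, IsClosed Z → Disjoint Z A → ℵ_ Ordinal.omega0 < #Z →
      (∀ z : Z, IsPPoint z) → PointwiseClosures Z (ℵ_ ((n + 1 : ℕ) : Ordinal.{u})) →
      (∀ y ∈ Z, ¬ LindelofNumberLe (f ⁻¹' {y} \ interior (f ⁻¹' {y}))
        (ℵ_ (n : Ordinal.{u}))) → Metalindelof Z) : Metalindelof Y := by
  intro 𝒰 h𝒰
  refine hasPCR_combined hX hf 𝒰 h𝒰 A hA (ι := PEmpty.{u + 1}) ?_ (fun i => i.elim)
    (fun i => i.elim) (fun i => i.elim) (fun i => i.elim) fun H hH hHA => ?_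
  · simpa using Cardinal.aleph0_pos.trans_le (Cardinal.aleph0_le_aleph Ordinal.omega0)
  refine (coverable_of_psubspaces hX hf H hH n (I := 𝒰)
    (hasDCC_of_not_freeSetProperty _ (hFS _)) (hasDCC_of_not_freeSetProperty _ (hFS _)) ?_
    (fun U => U.1) (fun U => h𝒰.1 _ U.2) ?_).mono_refines ?_
  · intro Z hZc hZH hP hPC hL
    by_cases hcard : #Z ≤ ℵ_ Ordinal.omega0
    · exact metalindelof_pspace hX hf hZc hP (Or.inl hcard)
    · refine hZ Z hZc ?_ (not_le.mp hcard) hP hPC hL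
      rw [Set.disjoint_left]
      exact fun y hy => (hHA y (hZH hy)).1
  · intro y _
    have hy : y ∈ ⋃₀ 𝒰 := by rw [h𝒰.2]; trivial
    obtain ⟨U, hU, hyU⟩ := hy
    exact ⟨⟨U, hU⟩, hyU⟩
  · rintro _ ⟨U, rfl⟩
    exact ⟨U.1, U.2, subset_rfl⟩

/-- Lindelof numbers of subsets of a closed subspace. -/
theorem lindelofNumberLe_preimage {X : Type u} [TopologicalSpace X] {K S : Set X} (hS : S ⊆ K)
    {κ : Cardinal.{u}} (h : LindelofNumberLe (Subtype.val ⁻¹' S : Set K) κ) :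
    LindelofNumberLe S κ := by
  classical
  intro 𝒢 h𝒢 hc
  obtain ⟨𝒢', h1, h2, h3⟩ := h ((fun G : Set X => (Subtype.val ⁻¹' G : Set K)) '' 𝒢) (by
    rintro _ ⟨G, hG, rfl⟩
    exact (h𝒢 G hG).preimage continuous_subtype_val) (by
    intro x hx
    obtain ⟨G, hG, hxG⟩ := hc hx
    exact ⟨_, ⟨G, hG, rfl⟩, hxG⟩)
  have h4 : ∀ E : 𝒢', ∃ G ∈ 𝒢, (Subtype.val ⁻¹' G : Set K) = E.1 := fun E => h1 E.2
  choose g hg1 hg2 using h4
  refine ⟨range g, ?_, Cardinal.mk_range_le.trans ?_, ?_⟩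
  · rintro _ ⟨E, rfl⟩
    exact hg1 E
  · exact h2
  · intro x hx
    obtain ⟨E, hE, hxE⟩ := h3 (show (⟨x, hS hx⟩ : K) ∈ Subtype.val ⁻¹' S from hx)
    refine ⟨_, ⟨⟨E, hE⟩, rfl⟩, ?_⟩
    have h5 : (⟨x, hS hx⟩ : K) ∈ (Subtype.val ⁻¹' g ⟨E, hE⟩ : Set K) := by
      rw [hg2]
      exact hxE
    exact h5

/-- The boundary has at most the Lindelof number of the fibre. -/
theorem lindelofNumberLe_boundary {X : Type u} [TopologicalSpace X] {S : Set X}
    {κ : Cardinal.{u}} (h : LindelofNumberLe S κ) : LindelofNumberLe (S \ interior S) κ := by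
  classical
  intro 𝒢 h𝒢 hc
  obtain ⟨𝒢', h1, h2, h3⟩ := h (insert (interior S) 𝒢) (by
    rintro G (rfl | hG)
    · exact isOpen_interior
    · exact h𝒢 G hG) (by
    intro x hx
    by_cases hx' : x ∈ interior S
    · exact ⟨_, mem_insert _ _, hx'⟩
    · obtain ⟨G, hG, hxG⟩ := hc ⟨hx, hx'⟩
      exact ⟨G, mem_insert_of_mem _ hG, hxG⟩)
  refine ⟨𝒢' ∩ 𝒢, inter_subset_right, (Cardinal.mk_le_mk_of_subset inter_subset_left).trans h2,
    ?_⟩
  rintro x ⟨hx, hx'⟩
  obtain ⟨G, hG, hxG⟩ := h3 hx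
  rcases h1 hG with rfl | hG'
  · exact absurd hxG hx'
  · exact ⟨G, ⟨hG, hG'⟩, hxG⟩

end Pool.Agent.MP_e848aa_gt.Dowker
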