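import Pool.Agent.MP_e848aa_gt.Closed.Omega
import Pool.Agent.MP_e848aa_gt.Dowker.Defs

/-!
Closed images of metalindelof spaces which are P-spaces and have closed refinements of
increasing open covers.
-/

open Set Topology Cardinal

namespace Pool.Agent.MP_e848aa_gt.Dowker

open Pool.Agent.MP_e848aa_gt.Closed

universe u v w

theorem coverStat_of_closedShrinkable {X : Type u} {Y : Type v} [TopologicalSpace X]
    [TopologicalSpace Y] (hX : Metalindelof X) {f : X → Y} (hf : ClosedMapping f)
    (hP : ∀ y : Y, IsPPoint y) (hY : ClosedShrinkable Y) (θ : Ordinal.{w}) :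
    CoverStat Y θ := by
  classical
  induction θ using WellFoundedLT.induction with
  | _ θ IH =>
  by_cases hθ : CountableLimit θ
  · intro U ho H hH hc
    obtain ⟨hlim, a, ha1, ha2⟩ := hθ
    let b : ℕ → Ordinal.{w} := fun n => Nat.rec (a 0) (fun m c => max c (a (m + 1))) n
    have hb0 : b 0 = a 0 := rfl
    have hbs : ∀ n, b (n + 1) = max (b n) (a (n + 1)) := fun n => rfl
    have hbθ : ∀ n, b n < θ := by
      intro n
      induction n with
      | zero => exact ha1 0
      | succ n ih => rw [hbs]; exact max_lt ih (ha1 _)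
    have hab : ∀ n, a n ≤ b n := by
      intro n
      cases n with
      | zero => exact le_rfl
      | succ n => rw [hbs]; exact le_max_right _ _
    have hbm : Monotone b := monotone_nat_of_le_succ fun n => by rw [hbs]; exact le_max_left _ _
    let G : ℕ → Set Y := fun n => (⋃ (s : Ordinal.{w}) (_ : s < b n), U s) ∪ Hᶜ
    have hG1 : ∀ n, IsOpen (G n) := fun n =>
      (isOpen_iUnion fun s => isOpen_iUnion fun _ => ho s).union hH.isOpen_compl
    have hG2 : Monotone G := by
      intro n m hnm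
      refine union_subset_union_left _ (iUnion₂_subset fun s hs => ?_)
      exact subset_iUnion₂_of_subset s (hs.trans_le (hbm hnm)) subset_rfl
    have hG3 : (⋃ n, G n) = Set.univ := by
      rw [eq_univ_iff_forall]
      intro y
      by_cases hy : y ∈ H
      · obtain ⟨s, hs, hys⟩ := hc y hy
        obtain ⟨n, hn⟩ := ha2 (s + 1) (hlim s hs)
        refine mem_iUnion.mpr ⟨n, Or.inl ?_⟩
        simp only [mem_iUnion, exists_prop]
        exact ⟨s, lt_of_lt_of_le (Order.lt_add_one_iff.mpr le_rfl) (hn.trans (hab n)), hys⟩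
      · exact mem_iUnion.mpr ⟨0, Or.inr hy⟩
    obtain ⟨𝒞, c1, c2, c3⟩ := hY G hG1 hG2 hG3
    have hcov : ∀ C : 𝒞, Coverable (U '' Iio θ) (H ∩ C.1) := by
      intro C
      obtain ⟨hC1, n, hn⟩ := c2 C.1 C.2
      have h1 := IH (b n) (hbθ n) U ho (H ∩ C.1) (hH.inter hC1) (by
        rintro y ⟨hy1, hy2⟩
        rcases hn hy2 with h | h
        · simp only [mem_iUnion, exists_prop] at h
          exact h
        · exact absurd hy1 h)
      refine (h1.mono_refines ?_).mono_set ?_
      · rintro _ ⟨s, hs, rfl⟩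
        exact ⟨U s, ⟨s, (show s < θ from lt_trans hs (hbθ n)), rfl⟩, subset_rfl⟩
      · exact fun y hy => ⟨hy, hP y⟩
    choose 𝒲 w1 w2 w3 w4 using hcov
    refine ((coverable_families hX hf H hH (I := 𝒞) c1 𝒲 w1 w3 ?_).mono_refines ?_).mono_set
      inter_subset_left
    · intro y hy
      have h1 : y ∈ ⋃₀ 𝒞 := by rw [c3]; trivial
      obtain ⟨C, hC, hyC⟩ := h1
      obtain ⟨W, hW, hyW⟩ := w4 ⟨C, hC⟩ ⟨hy, hyC⟩
      exact ⟨W, mem_iUnion.mpr ⟨_, hW⟩, hyW⟩
    · intro W hW
      obtain ⟨C, hC⟩ := mem_iUnion.mp hW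
      exact w2 C W hC
  · exact coverStat_step hX hf θ hθ IH

/-- P-spaces with closed refinements of increasing open covers. -/
theorem metalindelof_of_closedShrinkable {X : Type u} {Y : Type v} [TopologicalSpace X]
    [TopologicalSpace Y] (hX : Metalindelof X) {f : X → Y} (hf : ClosedMapping f)
    (hP : ∀ y : Y, IsPPoint y) (hY : ClosedShrinkable Y) : Metalindelof Y := by
  intro 𝒰 h𝒰
  refine hasPCR_of_coverable ((coverable_of_coverStat 𝒰 h𝒰.1 Set.univ isClosed_univ
    (by rw [h𝒰.2]) (coverStat_of_closedShrinkable hX hf hP hY _)).mono_set ?_)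
  exact fun y _ => ⟨trivial, hP y⟩

end Pool.Agent.MP_e848aa_gt.Dowker
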